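import Mathlib

set_option autoImplicit false

namespace Pool.Agent.Results.MP_c0cbcd_co.FiniteQuotient

/-- `N` is the set of misère N-positions (next player wins): there is no option (the player to move
cannot move and wins) or some option is not an N-position. -/
def MisereN {A : Type} (mv : A → A → Prop) (N : A → Prop) : Prop :=
  ∀ G : A, N G ↔ ((∀ K : A, ¬ mv K G) ∨ ∃ K : A, mv K G ∧ ¬ N K)

/-- `g` is the normal-play Grundy value: `g G` is the mex of the values of the options of `G`. -/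
def Grundy {A : Type} (mv : A → A → Prop) (g : A → ℕ) : Prop :=
  ∀ G : A, (∀ K : A, mv K G → g K ≠ g G) ∧ (∀ m : ℕ, m < g G → ∃ K : A, mv K G ∧ g K = m)

/-- Misère indistinguishability modulo `A`; its quotient is the misère quotient. -/
def indist {A : Type} [Add A] (N : A → Prop) : Setoid A where
  r G H := ∀ X : A, N (G + X) ↔ N (H + X)
  iseqv := ⟨fun _ _ => Iff.rfl, fun h X => (h X).symm, fun h k X => (h X).trans (k X)⟩

/-- `mv K G` (read: `K` is an option of `G`) makes the commutative monoid `A` a set of finite impartial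
games closed under options and with `+` the disjunctive sum. -/
def IsGames (A : Type) [AddCommMonoid A] (mv : A → A → Prop) : Prop :=
  (∀ G : A, Set.Finite {K : A | mv K G}) ∧ WellFounded mv ∧
  (∀ G H K : A, mv K (G + H) ↔
    ((∃ G' : A, mv G' G ∧ K = G' + H) ∨ (∃ H' : A, mv H' H ∧ K = G + H')))

/-- positions: a copies of *1, c copies of *2, d copies of {0, *1+*2, *2+*2}, e copies of {0, *1, D} -/
@[ext] structure Pos where
  a : ℕ
  c : ℕ
  d : ℕ
  e : ℕ
deriving DecidableEq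

def add (G H : Pos) : Pos := ⟨G.a + H.a, G.c + H.c, G.d + H.d, G.e + H.e⟩

def opt (G : Pos) : Fin 9 → Pos
  | 0 => ⟨G.a - 1, G.c, G.d, G.e⟩
  | 1 => ⟨G.a, G.c - 1, G.d, G.e⟩
  | 2 => ⟨G.a + 1, G.c - 1, G.d, G.e⟩
  | 3 => ⟨G.a, G.c, G.d - 1, G.e⟩
  | 4 => ⟨G.a + 1, G.c + 1, G.d - 1, G.e⟩
  | 5 => ⟨G.a, G.c + 2, G.d - 1, G.e⟩
  | 6 => ⟨G.a, G.c, G.d, G.e - 1⟩
  | 7 => ⟨G.a + 1, G.c, G.d, G.e - 1⟩
  | 8 => ⟨G.a, G.c, G.d + 1, G.e - 1⟩

def cnt (G : Pos) : Fin 9 → ℕ
  | 0 => G.a
  | 1 => G.c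
  | 2 => G.c
  | 3 => G.d
  | 4 => G.d
  | 5 => G.d
  | 6 => G.e
  | 7 => G.e
  | 8 => G.e

def mv (K G : Pos) : Prop := ∃ i : Fin 9, 0 < cnt G i ∧ K = opt G i

def wt (G : Pos) : ℕ := G.a + 2 * G.c + 5 * G.d + 6 * G.e

def P (G : Pos) : Prop :=
  (G.c + G.d + G.e = 0 ∧ G.a % 2 = 1) ∨
  (G.d = 1 ∧ (G.a + G.e) % 2 = 0 ∧ (G.c + G.e) % 2 = 1) ∨
  (0 < G.c + G.d + G.e ∧ G.d ≠ 1 ∧ (G.a + G.e + G.d) % 2 = 0 ∧ (G.c + G.e) % 2 = 0)

def g (G : Pos) : ℕ := (G.a + G.d) % 2 + 2 * ((G.c + G.e) % 2)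

lemma fin (G : Pos) : Set.Finite {K | mv K G} :=
  (Set.finite_range (opt G)).subset (fun _ ⟨i, _, h⟩ => ⟨i, h.symm⟩)

lemma wf : WellFounded mv := by
  refine Subrelation.wf (r := InvImage (· < ·) wt) ?_ (InvImage.wf wt wellFounded_lt)
  rintro K G ⟨i, h, rfl⟩
  show wt _ < wt _
  fin_cases i <;> simp only [opt, cnt, wt] at * <;> omega

lemma cnt_add (G H : Pos) (i : Fin 9) : cnt (add G H) i = cnt G i + cnt H i := by
  fin_cases i <;> rfl

lemma opt_l (G H : Pos) (i : Fin 9) (h : 0 < cnt G i) : opt (add G H) i = add (opt G i) H := by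
  fin_cases i <;> simp only [opt, cnt, add] at * <;> ext <;> simp only [] <;> omega

lemma opt_r (G H : Pos) (i : Fin 9) (h : 0 < cnt H i) : opt (add G H) i = add G (opt H i) := by
  fin_cases i <;> simp only [opt, cnt, add] at * <;> ext <;> simp only [] <;> omega

lemma mv_add (G H K : Pos) : mv K (add G H) ↔
    ((∃ G', mv G' G ∧ K = add G' H) ∨ (∃ H', mv H' H ∧ K = add G H')) := by
  constructor
  · rintro ⟨i, h, rfl⟩
    rw [cnt_add] at h
    by_cases h1 : 0 < cnt G i
    · exact Or.inl ⟨_, ⟨i, h1, rfl⟩, opt_l G H i h1⟩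
    · exact Or.inr ⟨_, ⟨i, by omega, rfl⟩, opt_r G H i (by omega)⟩
  · rintro (⟨_, ⟨i, h, rfl⟩, rfl⟩ | ⟨_, ⟨i, h, rfl⟩, rfl⟩)
    · exact ⟨i, by rw [cnt_add]; omega, (opt_l G H i h).symm⟩
    · exact ⟨i, by rw [cnt_add]; omega, (opt_r G H i h).symm⟩

lemma PP (G : Pos) (i : Fin 9) (h : 0 < cnt G i) (h1 : P G) : ¬ P (opt G i) := by
  fin_cases i <;> simp only [opt, cnt, P] at * <;> omega

lemma NP (G : Pos) (h1 : ¬ P G) (h2 : 0 < G.a + G.c + G.d + G.e) :
    ∃ i, 0 < cnt G i ∧ P (opt G i) := by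
  obtain ⟨a, c, d, e⟩ := G
  simp only [P] at h1 h2
  by_cases c + d + e = 0
  · exact ⟨0, by simp only [cnt]; omega, by simp only [opt, P]; omega⟩
  · by_cases d = 1
    · by_cases (c + e) % 2 = 1
      · by_cases 0 < a
        · exact ⟨0, by simp only [cnt]; omega, by simp only [opt, P]; omega⟩
        · exact ⟨8, by simp only [cnt]; omega, by simp only [opt, P]; omega⟩
      · by_cases (a + e) % 2 = 0
        · exact ⟨5, by simp only [cnt]; omega, by simp only [opt, P]; omega⟩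
        · by_cases 0 < c
          · exact ⟨2, by simp only [cnt]; omega, by simp only [opt, P]; omega⟩
          · by_cases 0 < e
            · exact ⟨6, by simp only [cnt]; omega, by simp only [opt, P]; omega⟩
            · exact ⟨3, by simp only [cnt]; omega, by simp only [opt, P]; omega⟩
    · by_cases (c + e) % 2 = 0
      · by_cases 0 < a
        · exact ⟨0, by simp only [cnt]; omega, by simp only [opt, P]; omega⟩
        · by_cases 2 < d
          · exact ⟨5, by simp only [cnt]; omega, by simp only [opt, P]; omega⟩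
          · by_cases d = 2
            · exact ⟨4, by simp only [cnt]; omega, by simp only [opt, P]; omega⟩
            · exact ⟨8, by simp only [cnt]; omega, by simp only [opt, P]; omega⟩
      · by_cases (a + e + d) % 2 = 0
        · by_cases 0 < c
          · by_cases c + d + e = 1
            · exact ⟨2, by simp only [cnt]; omega, by simp only [opt, P]; omega⟩
            · exact ⟨1, by simp only [cnt]; omega, by simp only [opt, P]; omega⟩
          · by_cases c + d + e = 1
            · exact ⟨6, by simp only [cnt]; omega, by simp only [opt, P]; omega⟩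
            · exact ⟨7, by simp only [cnt]; omega, by simp only [opt, P]; omega⟩
        · by_cases 0 < c
          · by_cases c + d + e = 1
            · exact ⟨1, by simp only [cnt]; omega, by simp only [opt, P]; omega⟩
            · exact ⟨2, by simp only [cnt]; omega, by simp only [opt, P]; omega⟩
          · by_cases c + d + e = 1
            · exact ⟨7, by simp only [cnt]; omega, by simp only [opt, P]; omega⟩
            · exact ⟨6, by simp only [cnt]; omega, by simp only [opt, P]; omega⟩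

lemma hN (G : Pos) : ¬ P G ↔ ((∀ K, ¬ mv K G) ∨ ∃ K, mv K G ∧ ¬ ¬ P K) := by
  constructor
  · intro h
    by_cases h2 : 0 < G.a + G.c + G.d + G.e
    · obtain ⟨i, hi, hp⟩ := NP G h h2
      exact Or.inr ⟨_, ⟨i, hi, rfl⟩, not_not.2 hp⟩
    · left
      rintro K ⟨i, hi, -⟩
      fin_cases i <;> simp only [cnt] at hi <;> omega
  · rintro (h | ⟨K, ⟨i, hi, rfl⟩, hp⟩) hP
    · have h0 : ∀ i, ¬ 0 < cnt G i := fun i hi => h _ ⟨i, hi, rfl⟩
      have := h0 0; have := h0 1; have := h0 3; have := h0 6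
      simp only [cnt, P] at *
      omega
    · exact hp (PP G i hi hP)

lemma gm (G : Pos) (m : ℕ) (hm : m < g G) : ∃ i, 0 < cnt G i ∧ g (opt G i) = m := by
  obtain ⟨a, c, d, e⟩ := G
  simp only [g] at hm
  by_cases (c + e) % 2 = 0
  · by_cases 0 < a
    · exact ⟨0, by simp only [cnt]; omega, by simp only [opt, g]; omega⟩
    · exact ⟨3, by simp only [cnt]; omega, by simp only [opt, g]; omega⟩
  · by_cases m = 2
    · by_cases 0 < a
      · exact ⟨0, by simp only [cnt]; omega, by simp only [opt, g]; omega⟩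
      · exact ⟨3, by simp only [cnt]; omega, by simp only [opt, g]; omega⟩
    · by_cases m = (a + d) % 2
      · by_cases 0 < c
        · exact ⟨1, by simp only [cnt]; omega, by simp only [opt, g]; omega⟩
        · exact ⟨6, by simp only [cnt]; omega, by simp only [opt, g]; omega⟩
      · by_cases 0 < c
        · exact ⟨2, by simp only [cnt]; omega, by simp only [opt, g]; omega⟩
        · exact ⟨7, by simp only [cnt]; omega, by simp only [opt, g]; omega⟩

lemma hg (G : Pos) : (∀ K, mv K G → g K ≠ g G) ∧ (∀ m, m < g G → ∃ K, mv K G ∧ g K = m) := by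
  constructor
  · rintro K ⟨i, hi, rfl⟩
    fin_cases i <;> simp only [opt, cnt, g] at * <;> omega
  · intro m hm
    have : ∃ i, 0 < cnt G i ∧ g (opt G i) = m := by
      exact gm G m hm
    obtain ⟨i, hi, h⟩ := this
    exact ⟨_, ⟨i, hi, rfl⟩, h⟩



instance : Add Pos := ⟨add⟩
instance : Zero Pos := ⟨⟨0, 0, 0, 0⟩⟩

instance : AddCommMonoid Pos where
  add_assoc G H K := by
    show add (add G H) K = add G (add H K)
    ext <;> simp only [add] <;> omega
  zero_add G := by
    show add ⟨0, 0, 0, 0⟩ G = G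
    ext <;> simp only [add] <;> omega
  add_zero G := by
    show add G ⟨0, 0, 0, 0⟩ = G
    ext <;> simp only [add] <;> omega
  add_comm G H := by
    show add G H = add H G
    ext <;> simp only [add] <;> omega
  nsmul := nsmulRec

lemma add_def (G H : Pos) : G + H = ⟨G.a + H.a, G.c + H.c, G.d + H.d, G.e + H.e⟩ := rfl
lemma zero_def : (0 : Pos) = ⟨0, 0, 0, 0⟩ := rfl

/-- the class of a position -/
def idx (G : Pos) : ℕ :=
  if G.c + G.d + G.e = 0 then G.a % 2
  else if G.d = 0 then 2 + (G.a + G.e) % 2 + 2 * ((G.c + G.e) % 2)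
  else if G.d = 1 then 6 + (G.a + G.e) % 2 + 2 * ((G.c + G.e) % 2)
  else 10 + (G.a + G.e + G.d) % 2 + 2 * ((G.c + G.e) % 2)

lemma idx_lt (G : Pos) : idx G < 14 := by
  unfold idx; split_ifs <;> omega

def rep : Fin 14 → Pos := ![⟨0, 0, 0, 0⟩, ⟨1, 0, 0, 0⟩, ⟨0, 2, 0, 0⟩, ⟨1, 2, 0, 0⟩, ⟨0, 1, 0, 0⟩,
  ⟨1, 1, 0, 0⟩, ⟨0, 0, 1, 0⟩, ⟨1, 0, 1, 0⟩, ⟨0, 1, 1, 0⟩, ⟨1, 1, 1, 0⟩, ⟨0, 0, 2, 0⟩, ⟨1, 0, 2, 0⟩,
  ⟨0, 1, 2, 0⟩, ⟨1, 1, 2, 0⟩]

lemma idx_rep (i : Fin 14) : idx (rep i) = i := by
  revert i; decide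

lemma PX1 (G H : Pos) (h : idx G = idx H) (X : Pos) (hp : P (G + X)) : P (H + X) := by
  have key : (G.c + G.d + G.e = 0 ∧ H.c + H.d + H.e = 0 ∧ G.a % 2 = H.a % 2) ∨
      (0 < G.c + G.d + G.e ∧ 0 < H.c + H.d + H.e ∧ G.d = 0 ∧ H.d = 0 ∧
        (G.a + G.e) % 2 = (H.a + H.e) % 2 ∧ (G.c + G.e) % 2 = (H.c + H.e) % 2) ∨
      (G.d = 1 ∧ H.d = 1 ∧
        (G.a + G.e) % 2 = (H.a + H.e) % 2 ∧ (G.c + G.e) % 2 = (H.c + H.e) % 2) ∨
      (2 ≤ G.d ∧ 2 ≤ H.d ∧
        (G.a + G.e + G.d) % 2 = (H.a + H.e + H.d) % 2 ∧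
          (G.c + G.e) % 2 = (H.c + H.e) % 2) := by
    have m1 := Nat.mod_lt (G.a + G.e) (show 0 < 2 by norm_num)
    have m2 := Nat.mod_lt (G.c + G.e) (show 0 < 2 by norm_num)
    have m3 := Nat.mod_lt (G.a + G.e + G.d) (show 0 < 2 by norm_num)
    have m4 := Nat.mod_lt (H.a + H.e) (show 0 < 2 by norm_num)
    have m5 := Nat.mod_lt (H.c + H.e) (show 0 < 2 by norm_num)
    have m6 := Nat.mod_lt (H.a + H.e + H.d) (show 0 < 2 by norm_num)
    have m7 := Nat.mod_lt (G.a) (show 0 < 2 by norm_num)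
    have m8 := Nat.mod_lt (H.a) (show 0 < 2 by norm_num)
    unfold idx at h
    generalize (G.a + G.e) % 2 = t1 at *
    generalize (G.c + G.e) % 2 = t2 at *
    generalize (G.a + G.e + G.d) % 2 = t3 at *
    generalize (H.a + H.e) % 2 = t4 at *
    generalize (H.c + H.e) % 2 = t5 at *
    generalize (H.a + H.e + H.d) % 2 = t6 at *
    generalize G.a % 2 = t7 at *
    generalize H.a % 2 = t8 at *
    split_ifs at h <;> first | (exfalso; omega) | skip
    · left; omega
    · right; left; omega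
    · right; right; left; omega
    · right; right; right; omega
  simp only [P, add_def] at hp ⊢
  rcases key with ⟨k1, k2, k3⟩ | ⟨k1, k2, k3, k4, k5, k6⟩ | ⟨k1, k2, k3, k4⟩ | ⟨k1, k2, k3, k4⟩
  · rcases hp with ⟨h1, h2⟩ | ⟨h1, h2, h3⟩ | ⟨h1, h2, h3, h4⟩
    · left; omega
    · right; left
      refine ⟨by omega, by omega, by omega⟩
    · right; right
      refine ⟨by omega, by omega, by omega, by omega⟩
  · rcases hp with ⟨h1, h2⟩ | ⟨h1, h2, h3⟩ | ⟨h1, h2, h3, h4⟩
    · left; omega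
    · right; left
      refine ⟨by omega, by omega, by omega⟩
    · right; right
      refine ⟨by omega, by omega, by omega, by omega⟩
  · rcases hp with ⟨h1, h2⟩ | ⟨h1, h2, h3⟩ | ⟨h1, h2, h3, h4⟩
    · left; omega
    · right; left
      refine ⟨by omega, by omega, by omega⟩
    · right; right
      refine ⟨by omega, by omega, by omega, by omega⟩
  · rcases hp with ⟨h1, h2⟩ | ⟨h1, h2, h3⟩ | ⟨h1, h2, h3, h4⟩
    · left; omega
    · right; left
      refine ⟨by omega, by omega, by omega⟩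
    · right; right
      refine ⟨by omega, by omega, by omega, by omega⟩

lemma PX (G H : Pos) (h : idx G = idx H) (X : Pos) : P (G + X) ↔ P (H + X) :=
  ⟨PX1 G H h X, PX1 H G h.symm X⟩

instance (G : Pos) : Decidable (P G) := by unfold P; infer_instance

def tests : List Pos := [⟨0, 0, 0, 0⟩, ⟨1, 0, 0, 0⟩, ⟨0, 1, 0, 0⟩, ⟨1, 1, 0, 0⟩, ⟨0, 0, 1, 0⟩,
  ⟨1, 0, 1, 0⟩, ⟨0, 1, 1, 0⟩, ⟨1, 1, 1, 0⟩, ⟨0, 0, 2, 0⟩, ⟨1, 0, 2, 0⟩, ⟨0, 1, 2, 0⟩, ⟨1, 1, 2, 0⟩]

lemma rep_ne : ∀ i j : Fin 14, i ≠ j → ∃ X ∈ tests, ¬ (P (rep i + X) ↔ P (rep j + X)) := by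
  decide +kernel

/-- the N-positions -/
def NN (G : Pos) : Prop := ¬ P G

lemma indist_iff (G H : Pos) : (indist NN).r G H ↔ idx G = idx H := by
  constructor
  · intro h
    by_contra hne
    let i : Fin 14 := ⟨idx G, idx_lt G⟩
    let j : Fin 14 := ⟨idx H, idx_lt H⟩
    have hij : i ≠ j := fun e => hne (congrArg Fin.val e)
    obtain ⟨X, -, hX⟩ := rep_ne i j hij
    apply hX
    have h1 : P (rep i + X) ↔ P (G + X) := PX _ _ (idx_rep i) X
    have h2 : P (rep j + X) ↔ P (H + X) := PX _ _ (idx_rep j) X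
    rw [h1, h2]
    exact not_iff_not.1 (h X)
  · intro h X
    exact not_congr (PX G H h X)

/-- There is a closed set `A` of finite impartial games, generated under disjunctive sum by the
followers `*1`, `*2`, `D = {0, *1 + *2, *2 + *2}` of the single game `E = {0, *1, D}` and `E`
itself, such that
(1) the misère quotient of `A` has exactly 14 elements;
(2) the quotient map is not faithful: `E ≡ *1 + *2`, with Grundy values `2` and `3`;
(3) there are `G ≡ H` with Grundy values `0` and `1`, so not even the normal-play outcome is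
determined by the class;
(4) the only classes on which the Grundy value is constant are those of `0` and `*1` (so it is
non-constant on the other 12 classes). -/
theorem result :
    ∃ (A : Type) (_ : AddCommMonoid A) (mv : A → A → Prop) (S1 S2 D E : A),
      IsGames A mv ∧
      (∀ K, ¬ mv K 0) ∧ (∀ K, mv K S1 ↔ K = 0) ∧ (∀ K, mv K S2 ↔ K = 0 ∨ K = S1) ∧
      (∀ K, mv K D ↔ K = 0 ∨ K = S1 + S2 ∨ K = S2 + S2) ∧
      (∀ K, mv K E ↔ K = 0 ∨ K = S1 ∨ K = D) ∧
      AddSubmonoid.closure {S1, S2, D, E} = (⊤ : AddSubmonoid A) ∧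
      ∃ (N : A → Prop) (g : A → ℕ), MisereN mv N ∧ Grundy mv g ∧
        Nat.card (Quotient (indist N)) = 14 ∧
        ((indist N).r E (S1 + S2) ∧ g E = 2 ∧ g (S1 + S2) = 3) ∧
        (∃ G H : A, (indist N).r G H ∧ g G = 0 ∧ g H = 1) ∧
        (∀ G : A, (∀ H : A, (indist N).r G H → g G = g H) ↔
          (indist N).r G 0 ∨ (indist N).r G S1) ∧
        ¬ (indist N).r (0 : A) S1 := by
  refine ⟨Pos, inferInstance, mv, ⟨1, 0, 0, 0⟩, ⟨0, 1, 0, 0⟩, ⟨0, 0, 1, 0⟩, ⟨0, 0, 0, 1⟩,
    ⟨fin, wf, mv_add⟩, ?_, ?_, ?_, ?_, ?_, ?_, NN, g, hN, hg, ?_, ⟨?_, rfl, rfl⟩,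
    ⟨⟨0, 2, 0, 0⟩, ⟨1, 1, 0, 1⟩, ?_, rfl, rfl⟩, ?_, ?_⟩
  · rintro K ⟨i, hi, -⟩
    fin_cases i <;> simp [cnt, zero_def] at hi
  · intro K
    constructor
    · rintro ⟨i, hi, rfl⟩
      fin_cases i <;> simp [cnt] at hi <;> rfl
    · rintro rfl
      exact ⟨0, by simp [cnt], rfl⟩
  · intro K
    constructor
    · rintro ⟨i, hi, rfl⟩
      fin_cases i <;> simp [cnt] at hi
      · exact Or.inl rfl
      · exact Or.inr rfl
    · rintro (rfl | rfl)
      · exact ⟨1, by simp [cnt], rfl⟩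
      · exact ⟨2, by simp [cnt], rfl⟩
  · intro K
    constructor
    · rintro ⟨i, hi, rfl⟩
      fin_cases i <;> simp [cnt] at hi
      · exact Or.inl rfl
      · exact Or.inr (Or.inl rfl)
      · exact Or.inr (Or.inr rfl)
    · rintro (rfl | rfl | rfl)
      · exact ⟨3, by simp [cnt], rfl⟩
      · exact ⟨4, by simp [cnt], rfl⟩
      · exact ⟨5, by simp [cnt], rfl⟩
  · intro K
    constructor
    · rintro ⟨i, hi, rfl⟩
      fin_cases i <;> simp [cnt] at hi
      · exact Or.inl rfl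
      · exact Or.inr (Or.inl rfl)
      · exact Or.inr (Or.inr rfl)
    · rintro (rfl | rfl | rfl)
      · exact ⟨6, by simp [cnt], rfl⟩
      · exact ⟨7, by simp [cnt], rfl⟩
      · exact ⟨8, by simp [cnt], rfl⟩
  · rw [eq_top_iff]
    rintro ⟨a, c, d, e⟩ -
    have key : ∀ (x : Pos) (n : ℕ), x ∈ ({⟨1, 0, 0, 0⟩, ⟨0, 1, 0, 0⟩, ⟨0, 0, 1, 0⟩, ⟨0, 0, 0, 1⟩} :
        Set Pos) → n • x ∈ AddSubmonoid.closure ({⟨1, 0, 0, 0⟩, ⟨0, 1, 0, 0⟩, ⟨0, 0, 1, 0⟩,
        ⟨0, 0, 0, 1⟩} : Set Pos) := fun x n hx =>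
      AddSubmonoid.nsmul_mem _ (AddSubmonoid.subset_closure hx) n
    have hn : ∀ (n : ℕ) (x : Pos), n • x = ⟨n * x.a, n * x.c, n * x.d, n * x.e⟩ := by
      intro n x
      induction n with
      | zero => rw [zero_nsmul, zero_def]; simp
      | succ n ih => rw [succ_nsmul, ih, add_def]; ext <;> simp <;> ring
    have h : (⟨a, c, d, e⟩ : Pos) = a • (⟨1, 0, 0, 0⟩ : Pos) + c • (⟨0, 1, 0, 0⟩ : Pos) +
        d • (⟨0, 0, 1, 0⟩ : Pos) + e • (⟨0, 0, 0, 1⟩ : Pos) := by
      rw [hn, hn, hn, hn, add_def, add_def, add_def]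
      simp
    rw [h]
    exact add_mem (add_mem (add_mem (key _ _ (by simp)) (key _ _ (by simp)))
      (key _ _ (by simp))) (key _ _ (by simp))
  · let φ : Quotient (indist NN) → Fin 14 := Quotient.lift (fun G => (⟨idx G, idx_lt G⟩ : Fin 14))
      (fun G H h => Fin.ext ((indist_iff G H).1 h))
    have hφ : Function.Bijective φ := by
      constructor
      · intro p q
        induction p using Quotient.inductionOn with
        | _ G =>
          induction q using Quotient.inductionOn with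
          | _ H =>
            intro h
            exact Quotient.sound ((indist_iff G H).2 (congrArg Fin.val h))
      · intro i
        exact ⟨Quotient.mk _ (rep i), Fin.ext (idx_rep i)⟩
    rw [Nat.card_eq_of_bijective φ hφ, Nat.card_eq_fintype_card, Fintype.card_fin]
  · exact (indist_iff _ _).2 rfl
  · exact (indist_iff _ _).2 rfl
  · intro G
    rw [indist_iff, indist_iff]
    have e0 : idx 0 = 0 := rfl
    have e1 : idx ⟨1, 0, 0, 0⟩ = 1 := rfl
    rw [e0, e1]
    constructor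
    · intro h
      by_contra hcon
      have hc : 0 < G.c + G.d + G.e := by
        by_contra h0
        apply hcon
        have : idx G = G.a % 2 := by
          unfold idx; rw [if_pos (by omega)]
        omega
      -- same class, other parity of `a + d`
      obtain ⟨H, hH, hg⟩ : ∃ H : Pos, idx G = idx H ∧ g G ≠ g H := by
        by_cases he : 0 < G.e
        · refine ⟨⟨G.a + 1, G.c + 1, G.d, G.e - 1⟩, ?_, ?_⟩
          · have e1 : (G.a + 1 + (G.e - 1)) % 2 = (G.a + G.e) % 2 := by omega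
            have e2 : (G.c + 1 + (G.e - 1)) % 2 = (G.c + G.e) % 2 := by omega
            have e3 : (G.a + 1 + (G.e - 1) + G.d) % 2 = (G.a + G.e + G.d) % 2 := by omega
            unfold idx
            simp only [e1, e2, e3]
            rw [if_neg (show ¬ (G.c + G.d + G.e = 0) by omega),
                if_neg (show ¬ (G.c + 1 + G.d + (G.e - 1) = 0) by omega)]
          · unfold g
            simp only
            omega
        · by_cases hcc : 0 < G.c
          · refine ⟨⟨G.a + 1, G.c - 1, G.d, G.e + 1⟩, ?_, ?_⟩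
            · have e1 : (G.a + 1 + (G.e + 1)) % 2 = (G.a + G.e) % 2 := by omega
              have e2 : (G.c - 1 + (G.e + 1)) % 2 = (G.c + G.e) % 2 := by omega
              have e3 : (G.a + 1 + (G.e + 1) + G.d) % 2 = (G.a + G.e + G.d) % 2 := by omega
              unfold idx
              simp only [e1, e2, e3]
              rw [if_neg (show ¬ (G.c + G.d + G.e = 0) by omega),
                if_neg (show ¬ (G.c - 1 + G.d + (G.e + 1) = 0) by omega)]
            · unfold g
              simp only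
              omega
          · refine ⟨⟨G.a + 1, G.c + 1, G.d, G.e + 1⟩, ?_, ?_⟩
            · have e1 : (G.a + 1 + (G.e + 1)) % 2 = (G.a + G.e) % 2 := by omega
              have e2 : (G.c + 1 + (G.e + 1)) % 2 = (G.c + G.e) % 2 := by omega
              have e3 : (G.a + 1 + (G.e + 1) + G.d) % 2 = (G.a + G.e + G.d) % 2 := by omega
              unfold idx
              simp only [e1, e2, e3]
              rw [if_neg (show ¬ (G.c + G.d + G.e = 0) by omega),
                if_neg (show ¬ (G.c + 1 + G.d + (G.e + 1) = 0) by omega)]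
            · unfold g
              simp only
              omega
      exact hg (h H ((indist_iff G H).2 hH))
    · intro h H hH
      rw [indist_iff] at hH
      unfold idx at h hH
      unfold g
      split_ifs at h hH <;> omega
  · rw [indist_iff]
    decide

end Pool.Agent.Results.MP_c0cbcd_co.FiniteQuotient
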